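import Pool.Agent.W425.GN.Defs

set_option autoImplicit false

/-! GN-C1: Bernstein's inequality (for helper425, project GN). -/

namespace Pool.Agent.W33.GN

open MvPolynomial Pool.Agent.W425.GN

section
variable {n : ℕ} {E N : Type} [Field E] [AddCommGroup N] [Module E N]

open scoped IsMulCommutative in
theorem exists_ax (x : Fin n → Module.End E N) (h : ∀ i j, x i * x j = x j * x i) :
    ∃ φ : MvPolynomial (Fin n) E →ₐ[E] Module.End E N, ∀ i, φ (X i) = x i := by
  have hc : ∀ a ∈ Set.range x, ∀ b ∈ Set.range x, a * b = b * a := by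
    rintro _ ⟨i, rfl⟩ _ ⟨j, rfl⟩
    exact h i j
  have := Algebra.isMulCommutative_adjoin E hc
  refine ⟨(Algebra.adjoin E (Set.range x)).val.comp
    (aeval fun i => (⟨x i, Algebra.subset_adjoin ⟨i, rfl⟩⟩ : Algebra.adjoin E (Set.range x))), ?_⟩
  intro i
  simp

/-- left half -/
noncomputable def ml (m : Fin n ⊕ Fin n →₀ ℕ) : Fin n →₀ ℕ :=
  Finsupp.equivFunOnFinite.symm fun i => m (Sum.inl i)

/-- right half -/
noncomputable def mr (m : Fin n ⊕ Fin n →₀ ℕ) : Fin n →₀ ℕ :=
  Finsupp.equivFunOnFinite.symm fun i => m (Sum.inr i)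

theorem exists_T (D : WMod n E N) :
    ∃ T : MvPolynomial (Fin n ⊕ Fin n) E →ₗ[E] Module.End E N, T 1 = 1 ∧
      (∀ i P, T (P * X (Sum.inl i)) = D.x i * T P) ∧
      (∀ i P, T (P * X (Sum.inr i)) = T P * D.d i) := by
  classical
  obtain ⟨φ, hφ⟩ := exists_ax (fun i => (D.x i : Module.End E N))
    (fun i j => LinearMap.ext fun w => D.xx i j w)
  obtain ⟨ψ, hψ⟩ := exists_ax (fun i => (D.d i : Module.End E N))
    (fun i j => LinearMap.ext fun w => D.dd i j w)
  set op : (Fin n ⊕ Fin n →₀ ℕ) → Module.End E N :=
    fun m => φ (monomial (ml m) 1) * ψ (monomial (mr m) 1) with hop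
  refine ⟨(basisMonomials (Fin n ⊕ Fin n) E).constr E op, ?_, ?_, ?_⟩
  all_goals
    have hT : ∀ m (a : E), (basisMonomials (Fin n ⊕ Fin n) E).constr E op (monomial m a) =
        a • op m := by
      intro m a
      have h1 : (monomial m a : MvPolynomial (Fin n ⊕ Fin n) E) =
          a • basisMonomials (Fin n ⊕ Fin n) E m := by
        rw [coe_basisMonomials, smul_monomial, smul_eq_mul, mul_one]
      rw [h1, map_smul, Module.Basis.constr_basis]
  · have h1 : (1 : MvPolynomial (Fin n ⊕ Fin n) E) = monomial 0 1 := rfl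
    rw [h1, hT, one_smul, hop]
    have h2 : ml (0 : Fin n ⊕ Fin n →₀ ℕ) = 0 := by ext i; rfl
    have h3 : mr (0 : Fin n ⊕ Fin n →₀ ℕ) = 0 := by ext i; rfl
    simp only [h2, h3]
    have h4 : (monomial 0 1 : MvPolynomial (Fin n) E) = 1 := rfl
    rw [h4, map_one, map_one, one_mul]
  · intro i P
    induction P using MvPolynomial.induction_on' with
    | add p q hp hq => rw [add_mul, map_add, map_add, hp, hq, mul_add]
    | monomial m a =>
      have h1 : (monomial m a : MvPolynomial (Fin n ⊕ Fin n) E) * X (Sum.inl i) =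
          monomial (m + Finsupp.single (Sum.inl i) 1) a := by
        rw [monomial_add_single, pow_one]
      rw [h1, hT, hT, hop]
      have h2 : ml (m + Finsupp.single (Sum.inl i) 1) = ml m + Finsupp.single i 1 := by
        ext j
        simp [ml, Finsupp.single_apply]
      have h3 : mr (m + Finsupp.single (Sum.inl i) 1) = mr m := by
        ext j
        simp [mr]
      simp only [h2, h3]
      rw [monomial_add_single, pow_one, mul_comm (monomial (ml m) 1) (X i), map_mul, hφ,
        mul_smul_comm, mul_assoc]
  · intro i P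
    induction P using MvPolynomial.induction_on' with
    | add p q hp hq => rw [add_mul, map_add, map_add, hp, hq, add_mul]
    | monomial m a =>
      have h1 : (monomial m a : MvPolynomial (Fin n ⊕ Fin n) E) * X (Sum.inr i) =
          monomial (m + Finsupp.single (Sum.inr i) 1) a := by
        rw [monomial_add_single, pow_one]
      rw [h1, hT, hT, hop]
      have h2 : mr (m + Finsupp.single (Sum.inr i) 1) = mr m + Finsupp.single i 1 := by
        ext j
        simp [mr, Finsupp.single_apply]
      have h3 : ml (m + Finsupp.single (Sum.inr i) 1) = ml m := by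
        ext j
        simp [ml]
      simp only [h2, h3]
      rw [monomial_add_single, pow_one, map_mul, hψ, smul_mul_assoc, mul_assoc]

/-- the properties of the symbol map -/
structure IsT (D : WMod n E N)
    (T : MvPolynomial (Fin n ⊕ Fin n) E →ₗ[E] Module.End E N) : Prop where
  one : T 1 = 1
  inl : ∀ i P, T (P * X (Sum.inl i)) = D.x i * T P
  inr : ∀ i P, T (P * X (Sum.inr i)) = T P * D.d i

variable {D : WMod n E N} {T : MvPolynomial (Fin n ⊕ Fin n) E →ₗ[E] Module.End E N}

theorem IsT.C (hT : IsT D T) (a : E) : T (C a) = a • 1 := by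
  have h1 : (MvPolynomial.C a : MvPolynomial (Fin n ⊕ Fin n) E) = a • 1 := by
    rw [smul_eq_C_mul, mul_one]
  rw [h1, map_smul, hT.one]

theorem IsT.comm_x (hT : IsT D T) (j : Fin n) (P : MvPolynomial (Fin n ⊕ Fin n) E) :
    T P * D.x j = D.x j * T P + T (pderiv (Sum.inr j) P) := by
  classical
  induction P using MvPolynomial.induction_on with
  | C a => rw [hT.C, pderiv_C, map_zero, add_zero, smul_mul_assoc, mul_smul_comm, one_mul, mul_one]
  | add p q hp hq =>
    rw [map_add, map_add, map_add, add_mul, mul_add, hp, hq]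
    abel
  | mul_X p k hp =>
    rcases k with i | i
    · have h1 : pderiv (Sum.inr j) (p * X (Sum.inl i)) =
          pderiv (Sum.inr j) p * X (Sum.inl i : Fin n ⊕ Fin n) := by
        rw [pderiv_mul, pderiv_X_of_ne (by simp), mul_zero, add_zero]
      have hxx : D.x i * D.x j = (D.x j * D.x i : Module.End E N) :=
        LinearMap.ext fun w => D.xx i j w
      rw [h1, hT.inl, hT.inl, mul_assoc, hp, mul_add, ← mul_assoc, hxx, mul_assoc]
    · have hdx : D.d i * D.x j = (D.x j * D.d i + if i = j then 1 else 0 : Module.End E N) := by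
        refine LinearMap.ext fun w => ?_
        have := D.dx i j w
        rw [LinearMap.add_apply]
        by_cases h : i = j
        · rw [if_pos h] at this ⊢
          exact this
        · rw [if_neg h] at this ⊢
          exact this
      have h1 : pderiv (Sum.inr j) (p * X (Sum.inr i)) =
          pderiv (Sum.inr j) p * X (Sum.inr i : Fin n ⊕ Fin n) + if i = j then p else 0 := by
        rw [pderiv_mul]
        by_cases h : i = j
        · subst h
          rw [pderiv_X_self, mul_one, if_pos rfl]
        · rw [pderiv_X_of_ne (by simpa using h), mul_zero, if_neg h]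
      rw [h1, hT.inr, map_add, hT.inr, mul_assoc, hdx, mul_add, ← mul_assoc, hp, add_mul,
        mul_assoc]
      by_cases h : i = j
      · rw [if_pos h, if_pos h, mul_one, add_assoc]
      · rw [if_neg h, if_neg h, mul_zero, map_zero, add_zero, add_zero]

theorem IsT.comm_d (hT : IsT D T) (j : Fin n) (P : MvPolynomial (Fin n ⊕ Fin n) E) :
    D.d j * T P = T P * D.d j + T (pderiv (Sum.inl j) P) := by
  classical
  induction P using MvPolynomial.induction_on with
  | C a => rw [hT.C, pderiv_C, map_zero, add_zero, smul_mul_assoc, mul_smul_comm, one_mul, mul_one]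
  | add p q hp hq =>
    rw [map_add, map_add, map_add, add_mul, mul_add, hp, hq]
    abel
  | mul_X p k hp =>
    rcases k with i | i
    · have hdx : D.d j * D.x i = (D.x i * D.d j + if i = j then 1 else 0 : Module.End E N) := by
        refine LinearMap.ext fun w => ?_
        have := D.dx j i w
        rw [LinearMap.add_apply]
        by_cases h : i = j
        · rw [if_pos h.symm] at this
          rw [if_pos h]
          exact this
        · rw [if_neg (fun h' => h h'.symm)] at this
          rw [if_neg h]
          exact this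
      have h1 : pderiv (Sum.inl j) (p * X (Sum.inl i)) =
          pderiv (Sum.inl j) p * X (Sum.inl i : Fin n ⊕ Fin n) + if i = j then p else 0 := by
        rw [pderiv_mul]
        by_cases h : i = j
        · subst h
          rw [pderiv_X_self, mul_one, if_pos rfl]
        · rw [pderiv_X_of_ne (by simpa using h), mul_zero, if_neg h]
      rw [h1, hT.inl, map_add, hT.inl, ← mul_assoc, hdx, add_mul, mul_assoc, hp, mul_add,
        ← mul_assoc, add_assoc]
      by_cases h : i = j
      · rw [if_pos h, if_pos h, one_mul]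
      · rw [if_neg h, if_neg h, zero_mul, map_zero]
    · have h1 : pderiv (Sum.inl j) (p * X (Sum.inr i)) =
          pderiv (Sum.inl j) p * X (Sum.inr i : Fin n ⊕ Fin n) := by
        rw [pderiv_mul, pderiv_X_of_ne (by simp), mul_zero, add_zero]
      have hdd : D.d j * D.d i = (D.d i * D.d j : Module.End E N) :=
        LinearMap.ext fun w => D.dd j i w
      rw [h1, hT.inr, hT.inr, ← mul_assoc, hp, add_mul, mul_assoc, hdd, ← mul_assoc]

/-! ### the filtration -/

theorem B_mono (G : Submodule E N) : Monotone (D.B G) :=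
  monotone_nat_of_le_succ fun _ => le_sup_left

theorem x_mem (G : Submodule E N) {k : ℕ} {u : N} (hu : u ∈ D.B G k) (i : Fin n) :
    D.x i u ∈ D.B G (k + 1) := by
  have h1 : (D.B G k).map (D.x i) ≤ D.B G (k + 1) :=
    (le_iSup (fun i => (D.B G k).map (D.x i)) i).trans (le_sup_left.trans le_sup_right)
  exact h1 ⟨u, hu, rfl⟩

theorem d_mem (G : Submodule E N) {k : ℕ} {u : N} (hu : u ∈ D.B G k) (i : Fin n) :
    D.d i u ∈ D.B G (k + 1) := by
  have h1 : (D.B G k).map (D.d i) ≤ D.B G (k + 1) :=
    (le_iSup (fun i => (D.B G k).map (D.d i)) i).trans (le_sup_right.trans le_sup_right)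
  exact h1 ⟨u, hu, rfl⟩

theorem B_finite (G : Submodule E N) [hG : Module.Finite E G] (k : ℕ) :
    Module.Finite E (D.B G k) := by
  induction k with
  | zero => exact hG
  | succ k ih =>
    have h1 : Module.Finite E (⨆ i, (D.B G k).map (D.x i) : Submodule E N) := inferInstance
    have h2 : Module.Finite E (⨆ i, (D.B G k).map (D.d i) : Submodule E N) := inferInstance
    show Module.Finite E (D.B G k ⊔ ((⨆ i, (D.B G k).map (D.x i)) ⊔
      ⨆ i, (D.B G k).map (D.d i)) : Submodule E N)
    infer_instance

/-- degree of an exponent -/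
def dg (m : Fin n ⊕ Fin n →₀ ℕ) : ℕ := ∑ i, m i

theorem dg_add (m m' : Fin n ⊕ Fin n →₀ ℕ) : dg (m + m') = dg m + dg m' := by
  simp [dg, Finset.sum_add_distrib]

theorem dg_single (i : Fin n ⊕ Fin n) : dg (Finsupp.single i 1) = 1 := by
  simp [dg, Finsupp.single_apply]

theorem IsT.mono_mem (hT : IsT D T) (G : Submodule E N) (d : ℕ) :
    ∀ (m : Fin n ⊕ Fin n →₀ ℕ), dg m = d → ∀ (a : E) (k : ℕ) (u : N), u ∈ D.B G k →
      T (monomial m a) u ∈ D.B G (k + d) := by
  induction d with
  | zero =>
    intro m hm a k u hu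
    have h0 : m = 0 := by
      ext i
      have := (Finset.sum_eq_zero_iff.mp hm) i (Finset.mem_univ i)
      simpa using this
    subst h0
    have h1 : (monomial 0 a : MvPolynomial (Fin n ⊕ Fin n) E) = MvPolynomial.C a := rfl
    rw [h1, hT.C]
    exact Submodule.smul_mem _ a hu
  | succ d ih =>
    intro m hm a k u hu
    obtain ⟨i, hi⟩ : ∃ i, m i ≠ 0 := by
      by_contra hc
      push Not at hc
      have : dg m = 0 := Finset.sum_eq_zero fun i _ => hc i
      omega
    set m' := m - Finsupp.single i 1 with hm'
    have hmm : m = m' + Finsupp.single i 1 := by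
      rw [hm', tsub_add_cancel_of_le]
      rw [Finsupp.single_le_iff]
      omega
    have hd : dg m' = d := by
      have := hm
      rw [hmm, dg_add, dg_single] at this
      omega
    have h1 : (monomial m a : MvPolynomial (Fin n ⊕ Fin n) E) = monomial m' a * X i := by
      rw [hmm, monomial_add_single, pow_one]
    rw [h1]
    rcases i with i | i
    · rw [hT.inl]
      have h2 := x_mem (D := D) G (ih m' hd a k u hu) i
      exact h2
    · rw [hT.inr]
      have h2 := ih m' hd a (k + 1) (D.d i u) (d_mem G hu i)
      have h3 : k + 1 + d = k + (d + 1) := by ring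
      rw [h3] at h2
      exact h2

/-- degree at most `v` -/
def Dg (v : ℕ) (P : MvPolynomial (Fin n ⊕ Fin n) E) : Prop := ∀ m, coeff m P ≠ 0 → dg m ≤ v

theorem IsT.mem (hT : IsT D T) (G : Submodule E N) {v : ℕ}
    {P : MvPolynomial (Fin n ⊕ Fin n) E} (hP : Dg v P) {k : ℕ} {u : N} (hu : u ∈ D.B G k) :
    T P u ∈ D.B G (k + v) := by
  rw [P.as_sum, map_sum, LinearMap.sum_apply]
  refine Submodule.sum_mem _ fun m hm => ?_
  have h1 : dg m ≤ v := hP m (mem_support_iff.mp hm)
  exact B_mono G (Nat.add_le_add_left h1 k) (hT.mono_mem G (dg m) m rfl _ k u hu)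

theorem Dg.pderiv {v : ℕ} {P : MvPolynomial (Fin n ⊕ Fin n) E} (hP : Dg (v + 1) P)
    (j : Fin n ⊕ Fin n) : Dg v (MvPolynomial.pderiv j P) := by
  intro m hm
  rw [coeff_pderiv] at hm
  have h1 := hP _ (left_ne_zero_of_mul hm)
  rw [dg_add, dg_single] at h1
  omega

theorem const_of_pderiv [CharZero E] {P : MvPolynomial (Fin n ⊕ Fin n) E}
    (h : ∀ j, MvPolynomial.pderiv j P = 0) : P = MvPolynomial.C (coeff 0 P) := by
  ext m
  rw [coeff_C]
  split_ifs with h0
  · rw [← h0]
  · obtain ⟨i, hi⟩ : ∃ i, m i ≠ 0 := by
      by_contra hc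
      push Not at hc
      exact h0 (Finsupp.ext fun i => (hc i).symm)
    have h1 : m - Finsupp.single i 1 + Finsupp.single i 1 = m := by
      rw [tsub_add_cancel_of_le]
      rw [Finsupp.single_le_iff]
      omega
    have h2 := coeff_pderiv (i := i) P (m - Finsupp.single i 1)
    rw [h i, coeff_zero, h1] at h2
    rcases mul_eq_zero.mp h2.symm with h3 | h3
    · exact h3
    · exfalso
      have h4 : ((((m - Finsupp.single i 1 : Fin n ⊕ Fin n →₀ ℕ) i + 1 : ℕ)) : E) = 0 := by
        push_cast
        exact h3
      exact absurd (Nat.cast_eq_zero.mp h4) (Nat.succ_ne_zero _)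

theorem IsT.inj [CharZero E] (hT : IsT D T) {w : N} (hw : w ≠ 0) : ∀ (v : ℕ)
    (P : MvPolynomial (Fin n ⊕ Fin n) E), Dg v P →
    (∀ u ∈ D.B (Submodule.span E {w}) v, T P u = 0) → P = 0 := by
  have key : ∀ (v : ℕ) (a : E), (∀ u ∈ D.B (Submodule.span E {w}) v,
      T (MvPolynomial.C a) u = 0) → a = 0 := by
    intro v a h
    have h1 : w ∈ D.B (Submodule.span E {w}) v :=
      B_mono (D := D) _ (Nat.zero_le v) (Submodule.mem_span_singleton_self w)
    have h2 := h w h1
    rw [hT.C] at h2
    exact (smul_eq_zero.mp h2).resolve_right hw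
  intro v
  induction v with
  | zero =>
    intro P hP h
    have h1 : P = MvPolynomial.C (coeff 0 P) := by
      ext m
      rw [coeff_C]
      split_ifs with h0
      · rw [← h0]
      · by_contra hc
        have h2 := hP m hc
        apply h0
        ext i
        have := (Finset.sum_eq_zero_iff.mp (Nat.le_zero.mp h2)) i (Finset.mem_univ i)
        simpa using this.symm
    rw [h1] at h ⊢
    rw [key 0 _ h, MvPolynomial.C_0]
  | succ v ih =>
    intro P hP h
    have hpd : ∀ j, MvPolynomial.pderiv j P = 0 := by
      intro j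
      refine ih _ (hP.pderiv j) ?_
      intro u hu
      have hu' : u ∈ D.B (Submodule.span E {w}) (v + 1) := B_mono (D := D) _ (Nat.le_succ v) hu
      rcases j with j | j
      · have h1 := LinearMap.congr_fun (hT.comm_d j P) u
        have h2 : D.d j (T P u) = T P (D.d j u) + T (MvPolynomial.pderiv (Sum.inl j) P) u := h1
        rw [h u hu', h _ (d_mem _ hu j), map_zero, zero_add] at h2
        exact h2.symm
      · have h1 := LinearMap.congr_fun (hT.comm_x j P) u
        have h2 : T P (D.x j u) = D.x j (T P u) + T (MvPolynomial.pderiv (Sum.inr j) P) u := h1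
        rw [h u hu', h _ (x_mem _ hu j), map_zero, zero_add] at h2
        exact h2.symm
    have h1 := const_of_pderiv hpd
    rw [h1] at h ⊢
    rw [key _ _ h, MvPolynomial.C_0]

/-- the exponents of degree at most `v` -/
theorem exists_set (n v : ℕ) : ∃ s : Finset (Fin n ⊕ Fin n →₀ ℕ),
    s.card = (v + 2 * n).choose (2 * n) ∧ ∀ m ∈ s, dg m ≤ v := by
  classical
  set F : (Option (Fin n ⊕ Fin n) →₀ ℕ) → (Fin n ⊕ Fin n →₀ ℕ) :=
    fun f => Finsupp.equivFunOnFinite.symm fun i => f (some i) with hF
  have hsum : ∀ f ∈ Finset.finsuppAntidiag (Finset.univ : Finset (Option (Fin n ⊕ Fin n))) v,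
      f none + dg (F f) = v := by
    intro f hf
    have h1 := (Finset.mem_finsuppAntidiag.mp hf).1
    rw [Fintype.sum_option] at h1
    exact h1
  refine ⟨(Finset.finsuppAntidiag (Finset.univ : Finset (Option (Fin n ⊕ Fin n))) v).image F,
    ?_, ?_⟩
  · rw [Finset.card_image_of_injOn, Finset.card_finsuppAntidiag_nat_eq_choose]
    · rw [Finset.card_univ, Fintype.card_option, Fintype.card_sum, Fintype.card_fin]
      have h1 : n + n + 1 + v - 1 = v + 2 * n := by omega
      rw [h1]
      exact Nat.choose_symm_of_eq_add (by ring)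
    · intro f hf g hg hfg
      have hs : ∀ i, f (some i) = g (some i) := fun i => DFunLike.congr_fun hfg i
      ext o
      rcases o with _ | i
      · have h1 := hsum f hf
        have h2 := hsum g hg
        have h3 : F f = F g := hfg
        rw [h3] at h1
        omega
      · exact hs i
  · intro m hm
    obtain ⟨f, hf, rfl⟩ := Finset.mem_image.mp hm
    have := hsum f hf
    omega

end

theorem t_C1 : TaskC1 := by
  intro n E N _ _ _ _ D w hw v
  classical
  obtain ⟨T, h1, h2, h3⟩ := exists_T D
  have hT : IsT D T := ⟨h1, h2, h3⟩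
  obtain ⟨s, hs, hsd⟩ := exists_set n v
  have hf1 := B_finite (D := D) (Submodule.span E {w}) v
  have hf2 := B_finite (D := D) (Submodule.span E {w}) (2 * v)
  have hDg : ∀ m ∈ s, ∀ a : E, Dg v (monomial m a : MvPolynomial (Fin n ⊕ Fin n) E) := by
    intro m hm a m' hm'
    rw [coeff_monomial] at hm'
    split_ifs at hm' with h
    · rw [← h]; exact hsd m hm
    · exact absurd rfl hm'
  -- the linearly independent family
  set Φ : s → (D.B (Submodule.span E {w}) v →ₗ[E] D.B (Submodule.span E {w}) (2 * v)) :=
    fun m => (T (monomial m.1 1)).restrict fun u hu => by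
      have := hT.mem (Submodule.span E {w}) (hDg m.1 m.2 1) hu
      rwa [← two_mul] at this with hΦ
  have hli : LinearIndependent E Φ := by
    rw [Fintype.linearIndependent_iff]
    intro g hg m
    set P : MvPolynomial (Fin n ⊕ Fin n) E := ∑ m : s, monomial m.1 (g m) with hP
    have hPd : Dg v P := by
      intro m' hm'
      by_contra hc
      apply hm'
      rw [hP, coeff_sum]
      refine Finset.sum_eq_zero fun k _ => ?_
      by_contra h
      exact hc (hDg k.1 k.2 (g k) m' h)
    have hP0 : P = 0 := by
      refine hT.inj hw v P hPd ?_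
      intro u hu
      have h4 := LinearMap.congr_fun hg ⟨u, hu⟩
      have h5 := congrArg Subtype.val h4
      rw [LinearMap.sum_apply] at h5
      rw [hP, map_sum, LinearMap.sum_apply]
      have h6 : ∀ k : s, T (monomial k.1 (g k)) u =
          (((g k • Φ k) ⟨u, hu⟩ : D.B (Submodule.span E {w}) (2 * v)) : N) := by
        intro k
        have h7 : (monomial k.1 (g k) : MvPolynomial (Fin n ⊕ Fin n) E) =
            g k • monomial k.1 1 := by
          rw [smul_monomial, smul_eq_mul, mul_one]
        rw [h7, map_smul]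
        rfl
      rw [Finset.sum_congr rfl fun k _ => h6 k]
      rw [← Submodule.coe_sum]
      exact h5
    have h8 : coeff m.1 P = g m := by
      rw [hP, coeff_sum, Finset.sum_eq_single m]
      · rw [coeff_monomial, if_pos rfl]
      · intro k _ hk
        rw [coeff_monomial, if_neg]
        intro h
        exact hk (Subtype.ext h)
      · intro h
        exact absurd (Finset.mem_univ m) h
    rw [← h8, hP0, coeff_zero]
  have h9 := hli.fintype_card_le_finrank
  rw [Fintype.card_coe, hs, Module.finrank_linearMap] at h9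
  exact h9

end Pool.Agent.W33.GN
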